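import Pool.Agent.H29.T1.S7

/-!
# T1: ALLK (the number of all polynomials)
-/

set_option autoImplicit false

namespace Pool.T1.ALLK82

open Polynomial Matrix Pool.HYP Pool.TOW Pool.AVS IsDedekindDomain

section Gen

variable {R : Type} [CommRing R] [Nontrivial R] {N : ℕ}

/-- The monic polynomial with given lower coefficients. -/
noncomputable def phi (N : ℕ) (a : Fin N → R) : R[X] := X ^ N + ∑ j : Fin N, C (a j) * X ^ (j : ℕ)

omit [Nontrivial R] in
lemma coeff_low (a : Fin N → R) (k : ℕ) :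
    (∑ j : Fin N, C (a j) * X ^ (j : ℕ)).coeff k = if h : k < N then a ⟨k, h⟩ else 0 := by
  rw [finsetSum_coeff]
  simp only [coeff_C_mul, coeff_X_pow]
  split_ifs with h
  · rw [Finset.sum_eq_single (⟨k, h⟩ : Fin N)]
    · simp
    · intro b _ hb
      have : k ≠ (b : ℕ) := fun e => hb (Fin.ext e.symm)
      simp [this]
    · intro h'
      exact absurd (Finset.mem_univ _) h'
  · apply Finset.sum_eq_zero
    intro b _
    have : k ≠ (b : ℕ) := fun e => h (e ▸ b.2)
    simp [this]

omit [Nontrivial R] in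
lemma deg_low (a : Fin N → R) : (∑ j : Fin N, C (a j) * X ^ (j : ℕ)).degree < (N : WithBot ℕ) := by
  refine lt_of_le_of_lt (degree_sum_le _ _) ?_
  refine (Finset.sup_lt_iff (WithBot.bot_lt_coe N)).2 fun j _ => ?_
  exact lt_of_le_of_lt (degree_C_mul_X_pow_le _ _) (WithBot.coe_lt_coe.2 j.2)

omit [Nontrivial R] in
lemma coeff_phi (a : Fin N → R) (j : Fin N) : (phi N a).coeff j = a j := by
  unfold phi
  rw [coeff_add, coeff_low, coeff_X_pow]
  have h1 : ((j : ℕ) = N) = False := by simpa using j.2.ne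
  simp [h1]

omit [Nontrivial R] in
lemma monic_phi (a : Fin N → R) : (phi N a).Monic := monic_X_pow_add (deg_low a)

lemma natDegree_phi (a : Fin N → R) : (phi N a).natDegree = N := by
  unfold phi
  rw [natDegree_add_eq_left_of_degree_lt, natDegree_X_pow]
  rw [degree_X_pow]
  exact deg_low a

omit [Nontrivial R] in
lemma phi_inj : Function.Injective (phi (R := R) N) := by
  intro a b h
  funext j
  rw [← coeff_phi a j, ← coeff_phi b j, h]

lemma phi_surj {f : R[X]} (hf : f.Monic) (hN : f.natDegree = N) :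
    phi N (fun j => f.coeff j) = f := by
  ext k
  rcases lt_trichotomy k N with h | h | h
  · exact coeff_phi (fun j : Fin N => f.coeff j) ⟨k, h⟩
  · have h1 := (monic_phi (fun j : Fin N => f.coeff j)).coeff_natDegree
    rw [natDegree_phi] at h1
    have h2 := hf.coeff_natDegree
    rw [hN] at h2
    rw [h, h1, h2]
  · rw [coeff_eq_zero_of_natDegree_lt, coeff_eq_zero_of_natDegree_lt]
    · omega
    · rw [natDegree_phi]
      exact h

/-- Monic polynomials with lower coefficients in given sets. -/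
lemma image_phi (S : ℕ → Set R) :
    {f : R[X] | f.Monic ∧ f.natDegree = N ∧ ∀ j < N, f.coeff j ∈ S j} =
      phi N '' (Set.univ.pi fun j : Fin N => S j) := by
  ext f
  constructor
  · rintro ⟨h1, h2, h3⟩
    exact ⟨fun j => f.coeff j, fun j _ => h3 j j.2, phi_surj h1 h2⟩
  · rintro ⟨a, ha, rfl⟩
    refine ⟨monic_phi a, natDegree_phi a, fun j hj => ?_⟩
    rw [coeff_phi a ⟨j, hj⟩]
    exact ha ⟨j, hj⟩ (Set.mem_univ _)

omit [CommRing R] [Nontrivial R] in
lemma ncard_pi (S : ℕ → Set R) : (Set.univ.pi fun j : Fin N => S j).ncard =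
    ∏ j ∈ Finset.range N, (S j).ncard := by
  rw [← Nat.card_coe_set_eq, Nat.card_congr (Equiv.Set.univPi fun j : Fin N => S j), Nat.card_pi,
    ← Fin.prod_univ_eq_prod_range]
  rfl

/-- The number of monic polynomials with lower coefficients in given finite sets. -/
theorem count (S : ℕ → Set R) (hS : ∀ j < N, (S j).Finite) :
    {f : R[X] | f.Monic ∧ f.natDegree = N ∧ ∀ j < N, f.coeff j ∈ S j}.Finite ∧
    {f : R[X] | f.Monic ∧ f.natDegree = N ∧ ∀ j < N, f.coeff j ∈ S j}.ncard =
      ∏ j ∈ Finset.range N, (S j).ncard := by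
  rw [image_phi]
  have h1 : (Set.univ.pi fun j : Fin N => S j).Finite := Set.Finite.pi fun j => hS j j.2
  refine ⟨h1.image _, ?_⟩
  · rw [Set.ncard_image_of_injective _ phi_inj, ncard_pi]

end Gen

lemma one_mem (R : Type) [CommRing R] {K : Type} [Field K] [Algebra R K] (O : ValuationSubring K)
    (π : K) : (1 : R) ∈ Lm R O π 0 := by
  show algebraMap R K 1 * π ^ (0 : ℤ) ∈ O
  rw [map_one, zpow_zero, one_mul]
  exact O.one_mem

/-- `All` by its lower coefficients. -/
theorem all_eq (R : Type) [CommRing R] {K : Type} [Field K] [Algebra R K]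
    (O : ValuationSubring K) (π : K) (g h : ℕ) :
    All R O π g h = {f : R[X] | f.Monic ∧ f.natDegree = 2 * g + 1 ∧
      ∀ j < 2 * g + 1, f.coeff j ∈ Lm R O π (((2 * g + 1 - j) * h : ℕ) : ℤ)} := by
  ext f
  constructor
  · rintro ⟨h1, h2, h3⟩
    refine ⟨h1, h2, fun j hj => ?_⟩
    have := h3 (2 * g + 1 - j) (by omega)
    rwa [show 2 * g + 1 - (2 * g + 1 - j) = j by omega] at this
  · rintro ⟨h1, h2, h3⟩
    refine ⟨h1, h2, fun i hi => ?_⟩
    rcases Nat.eq_zero_or_pos i with rfl | h0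
    · rw [Nat.sub_zero, ← h2, h1.coeff_natDegree, Nat.zero_mul, Nat.cast_zero]
      exact one_mem R O π
    · have := h3 (2 * g + 1 - i) (by omega)
      rwa [show 2 * g + 1 - (2 * g + 1 - i) = i by omega] at this

theorem prod_reindex (N : ℕ) (F : ℕ → ℕ) :
    ∏ j ∈ Finset.range N, F (N - j) = ∏ i ∈ Finset.Icc 1 N, F i := by
  rw [← Finset.prod_range_reflect, Finset.range_eq_Ico]
  have h1 : Finset.Icc 1 N = Finset.Ico (0 + 1) (N + 1) := rfl
  rw [h1, ← Finset.prod_Ico_add' (fun i => F i) 0 N 1]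
  apply Finset.prod_congr rfl
  intro j hj
  rw [Finset.mem_Ico] at hj
  congr 1
  omega

end Pool.T1.ALLK82

namespace Pool.T1

open Polynomial Matrix Pool.HYP Pool.TOW Pool.AVS IsDedekindDomain

theorem allk : ALLKStmt := by
  intro R _ _ K _ _ _ O π _ hfin g h
  rw [ALLK82.all_eq]
  obtain ⟨h1, h2⟩ := ALLK82.count (R := R) (N := 2 * g + 1)
    (fun j => Lm R O π (((2 * g + 1 - j) * h : ℕ) : ℤ)) (fun j _ => hfin _)
  refine ⟨h1, h2.trans ?_⟩
  exact ALLK82.prod_reindex (2 * g + 1) fun i => (Lm R O π ((i * h : ℕ) : ℤ)).ncard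

end Pool.T1
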