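import Pool.Agent.H82.T1.ALLK

/-!
# T1: GROW (growth of the number of all polynomials)
-/

set_option autoImplicit false

namespace Pool.T1

open Polynomial Matrix Pool.HYP Pool.TOW Pool.AVS IsDedekindDomain

theorem grow (hA : ALLKStmt) : GROWStmt := by
  intro R _ _ K _ _ _ O π hGR hup hlow g E
  obtain ⟨c, hc⟩ := hlow
  refine ⟨∏ i ∈ Finset.Icc 1 (2 * g + 1), (qq O ^ (i * E) * c), fun h => ?_⟩
  rw [(hA R K O π hGR (fun m => (hup m).1) g (h + E)).2,
    (hA R K O π hGR (fun m => (hup m).1) g h).2, ← Finset.prod_mul_distrib]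
  apply Finset.prod_le_prod'
  intro i _
  have h1 := (hup ((i * (h + E) : ℕ) : ℤ)).2
  have h2 := hc (i * h)
  have h3 : (((i * (h + E) : ℕ) : ℤ) + 1).toNat = i * E + (i * h + 1) := by
    have : (((i * (h + E) : ℕ) : ℤ) + 1) = ((i * E + (i * h + 1) : ℕ) : ℤ) := by
      push_cast
      ring
    rw [this, Int.toNat_natCast]
  rw [h3, pow_add] at h1
  calc (Lm R O π ((i * (h + E) : ℕ) : ℤ)).ncard ≤ qq O ^ (i * E) * qq O ^ (i * h + 1) := h1
    _ ≤ qq O ^ (i * E) * (c * (Lm R O π ((i * h : ℕ) : ℤ)).ncard) := Nat.mul_le_mul_left _ h2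
    _ = qq O ^ (i * E) * c * (Lm R O π ((i * h : ℕ) : ℤ)).ncard := by ring

end Pool.T1
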